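import Pool.Agent.helper53.PV.SpecD

set_option autoImplicit false

open scoped Topology
open MeasureTheory Filter

namespace Pool.Agent.PV

open Pool.Agent.CZ

theorem JC0_up_add {A : Type} [CStarAlgebra A] (u : unitary A) (m n : ℤ) :
    up u (m + n) = up u m * up u n := by
  unfold up
  rw [zpow_add]
  rfl

theorem JC0_star_up {A : Type} [CStarAlgebra A] (u : unitary A) (n : ℤ) :
    star (up u n) = up u (-n) := by
  unfold up
  rw [zpow_neg]
  rfl

/-- finite sums of monomials -/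
noncomputable def JC0_L {X : Type} [TopologicalSpace X] [CompactSpace X] {A : Type}
    [CStarAlgebra A] (ι : C(X, ℂ) →⋆ₐ[ℂ] A) (u : unitary A) : (ℤ →₀ C(X, ℂ)) →ₗ[ℂ] A :=
  Finsupp.lsum ℂ fun n => (LinearMap.mulRight ℂ (up u n)).comp ι.toAlgHom.toLinearMap

theorem JC0_L_apply {X : Type} [TopologicalSpace X] [CompactSpace X] {A : Type}
    [CStarAlgebra A] (ι : C(X, ℂ) →⋆ₐ[ℂ] A) (u : unitary A) (F : ℤ →₀ C(X, ℂ)) :
    JC0_L ι u F = ∑ n ∈ F.support, ι (F n) * up u n := by
  unfold JC0_L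
  rw [Finsupp.lsum_apply]
  rfl

theorem JC0_mono (hCEX : CEX_stmt) {X : Type} [TopologicalSpace X] [CompactSpace X] {α : X ≃ₜ X}
    {A : Type} [CStarAlgebra A] {ι : C(X, ℂ) →⋆ₐ[ℂ] A} {u : unitary A}
    {c : ℤ → A →ₗ[ℂ] C(X, ℂ)} (hc : Cov α ι u c) (m n : ℤ) (f g : C(X, ℂ)) :
    c 0 (star (ι f * up u m) * (ι g * up u n)) =
      if n = m then sh α m (star f * g) else 0 := by
  have h1 : star (ι f * up u m) * (ι g * up u n) = ι (sh α m (star f * g)) * up u (n - m) := by
    rw [star_mul, JC0_star_up, ← map_star]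
    have h2 : up u (-m) * ι (star f) * (ι g * up u n) = up u (-m) * ι (star f * g) * up u n := by
      rw [map_mul]
      noncomm_ring
    rw [h2, hCEX X α A ι u c hc, neg_neg, mul_assoc, ← JC0_up_add]
    congr 2
    ring
  rw [h1, hc.cval]
  by_cases h : n = m
  · rw [if_pos h, if_pos (by omega)]
  · rw [if_neg h, if_neg (by omega)]

theorem JC0_fin (hCEX : CEX_stmt) {X : Type} [TopologicalSpace X] [CompactSpace X] {α : X ≃ₜ X}
    {A : Type} [CStarAlgebra A] {ι : C(X, ℂ) →⋆ₐ[ℂ] A} {u : unitary A}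
    {c : ℤ → A →ₗ[ℂ] C(X, ℂ)} (hc : Cov α ι u c) (F : ℤ →₀ C(X, ℂ)) (x : X) :
    c 0 (star (JC0_L ι u F) * JC0_L ι u F) x =
      ∑ m ∈ F.support, (Complex.normSq (F m ((α ^ m) x)) : ℂ) := by
  rw [JC0_L_apply, star_sum, Finset.sum_mul_sum, map_sum]
  have h1 : ∀ m ∈ F.support, c 0 (∑ n ∈ F.support, star (ι (F m) * up u m) * (ι (F n) * up u n)) =
      sh α m (star (F m) * F m) := by
    intro m hm
    rw [map_sum]
    simp only [JC0_mono hCEX hc]
    rw [Finset.sum_ite_eq' F.support m, if_pos hm]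
  rw [Finset.sum_congr rfl h1, ContinuousMap.sum_apply]
  refine Finset.sum_congr rfl fun m _ => ?_
  show star (F m ((α ^ m) x)) * F m ((α ^ m) x) = _
  rw [mul_comm, Complex.normSq_eq_conj_mul_self, mul_comm]
  rfl

theorem JC0 (hCEX : CEX_stmt) : JC0_stmt := by
  intro X _ _ α A _ ι u c hc a x
  have hcont0 : Continuous (c 0) := by
    refine AddMonoidHomClass.continuous_of_bound (c 0) 1 fun b => ?_
    rw [one_mul]
    exact hc.cnorm 0 b
  have hcont : Continuous fun b : A => c 0 (star b * b) x :=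
    (continuous_eval_const x).comp (hcont0.comp (continuous_star.mul continuous_id))
  have hclosed : IsClosed {b : A | 0 ≤ (c 0 (star b * b) x).re ∧ (c 0 (star b * b) x).im = 0} := by
    refine IsClosed.inter ?_ ?_
    · exact isClosed_le continuous_const (Complex.continuous_re.comp hcont)
    · exact isClosed_eq (Complex.continuous_im.comp hcont) continuous_const
  have hspan : (Submodule.span ℂ {a : A | ∃ (f : C(X, ℂ)) (n : ℤ),
      a = ι f * ((u ^ n : unitary A) : A)} : Submodule ℂ A) ≤ LinearMap.range (JC0_L ι u) := by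
    rw [Submodule.span_le]
    rintro _ ⟨f, n, rfl⟩
    refine ⟨Finsupp.single n f, ?_⟩
    unfold JC0_L
    rw [Finsupp.lsum_single]
    rfl
  have hsub : ((Submodule.span ℂ {a : A | ∃ (f : C(X, ℂ)) (n : ℤ),
      a = ι f * ((u ^ n : unitary A) : A)} : Submodule ℂ A) : Set A) ⊆
      {b : A | 0 ≤ (c 0 (star b * b) x).re ∧ (c 0 (star b * b) x).im = 0} := by
    intro b hb
    obtain ⟨F, rfl⟩ := hspan hb
    show 0 ≤ (c 0 (star (JC0_L ι u F) * JC0_L ι u F) x).re ∧
      (c 0 (star (JC0_L ι u F) * JC0_L ι u F) x).im = 0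
    rw [JC0_fin hCEX hc, ← Complex.ofReal_sum]
    refine ⟨?_, Complex.ofReal_im _⟩
    rw [Complex.ofReal_re]
    exact Finset.sum_nonneg fun m _ => Complex.normSq_nonneg _
  have huniv := hclosed.closure_subset_iff.2 hsub
  rw [hc.dense.closure_eq] at huniv
  exact huniv (Set.mem_univ a)

end Pool.Agent.PV
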