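import Pool.Agent.helper77.PV.SpecA

set_option autoImplicit false
set_option linter.unusedSectionVars false
set_option linter.unusedVariables false

open scoped Matrix Topology
open Filter

namespace Pool.Agent.PV

open Pool.Agent.CZ

theorem SX1_inv_cont {A ι X : Type} [NormedRing A] [CompleteSpace A] [Fintype ι] [DecidableEq ι]
    [TopologicalSpace X] (γ : X → Matrix ι ι A) (hγ : Continuous γ) (hu : ∀ t, IsUnit (γ t)) :
    Continuous (fun t => Ring.inverse (γ t)) := by
  have hc : CompleteSpace (Matrix ι ι A) := inferInstance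
  let N : NormedRing (Matrix ι ι A) := Matrix.linftyOpNormedRing
  have hc' : @CompleteSpace (Matrix ι ι A)
    N.toMetricSpace.toPseudoMetricSpace.toUniformSpace := hc
  have hg : @HasSummableGeomSeries (Matrix ι ι A) N :=
    @instHasSummableGeomSeriesOfCompleteSpace (Matrix ι ι A) N hc'
  have h1 : ∀ u : (Matrix ι ι A)ˣ, ContinuousAt Ring.inverse (u : Matrix ι ι A) := fun u =>
    @NormedRing.inverse_continuousAt (Matrix ι ι A) N hg u
  rw [continuous_iff_continuousAt]
  intro t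
  obtain ⟨u, hu'⟩ := hu t
  have h2 := h1 u
  rw [hu'] at h2
  exact ContinuousAt.comp (g := Ring.inverse) h2 hγ.continuousAt

theorem SX1_lift {C C' ι : Type} [Ring C] [Ring C'] [Fintype ι] [DecidableEq ι] (j : C →+* C')
    (hj : Function.Injective j) (u v : Matrix ι ι C') (huv : u * v = 1) (hvu : v * u = 1)
    (hu : ∀ a b, ∃ x, j x = u a b) (hv : ∀ a b, ∃ x, j x = v a b) :
    ∃ u₀ : (Matrix ι ι C)ˣ, (u₀ : Matrix ι ι C).map j = u := by
  choose a ha using hu
  choose b hb using hv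
  have ha' : (Matrix.of a).map j = u := by
    ext i k
    exact ha i k
  have hb' : (Matrix.of b).map j = v := by
    ext i k
    exact hb i k
  have hinj := Matrix.map_injective (m := ι) (n := ι) hj
  have h1 : (1 : Matrix ι ι C).map j = 1 := map_one j.mapMatrix
  have e1 : Matrix.of a * Matrix.of b = 1 := by
    apply hinj
    show (Matrix.of a * Matrix.of b).map j = (1 : Matrix ι ι C).map j
    rw [Matrix.map_mul, ha', hb', huv, h1]
  have e2 : Matrix.of b * Matrix.of a = 1 := by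
    apply hinj
    show (Matrix.of b * Matrix.of a).map j = (1 : Matrix ι ι C).map j
    rw [Matrix.map_mul, ha', hb', hvu, h1]
  exact ⟨⟨Matrix.of a, Matrix.of b, e1, e2⟩, ha'⟩

section

variable {C C' D : Type} [NormedRing C] [NormedAlgebra ℂ C] [CompleteSpace C]
  [NormedRing C'] [NormedAlgebra ℂ C'] [CompleteSpace C'] [NormedRing D] [NormedAlgebra ℂ D]
  [CompleteSpace D] {j : C →ₐ[ℂ] C'} {e : C' →ₐ[ℂ] D} {r : D →ₐ[ℂ] C'}

theorem SX1_inj (hs : Split j e r) : Function.Injective j := by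
  rw [injective_iff_map_eq_zero]
  intro x hx
  have := hs.iso x
  rw [hx, norm_zero] at this
  exact norm_eq_zero.mp this.symm

theorem SX1_entry (hs : Split j e r) {ι : Type} [Fintype ι] [DecidableEq ι] {u : Matrix ι ι C'}
    (hu : u.map e = 1) (a b : ι) : ∃ x, j.toRingHom x = u a b := by
  apply hs.ran
  refine ⟨if a = b then 1 else 0, ?_⟩
  have h := congrFun (congrFun hu a) b
  rw [Matrix.map_apply] at h
  rw [h, Matrix.one_apply]
  split_ifs <;> simp

theorem SX1_lift' (hs : Split j e r) {ι : Type} [Fintype ι] [DecidableEq ι] (u v : Matrix ι ι C')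
    (huv : u * v = 1) (hvu : v * u = 1) (hu : u.map e = 1) (hv : v.map e = 1) :
    ∃ u₀ : (Matrix ι ι C)ˣ, (u₀ : Matrix ι ι C).map j = u :=
  SX1_lift j.toRingHom (SX1_inj hs) u v huv hvu (SX1_entry hs hu) (SX1_entry hs hv)

theorem SX1_umap_er (hs : Split j e r) {ι : Type} [Fintype ι] [DecidableEq ι]
    (h : (Matrix ι ι D)ˣ) : umap e.toRingHom (umap r.toRingHom h) = h := by
  apply Units.ext
  ext a b
  exact hs.er _

theorem SX1_surj (hK1G : K1G_stmt) (hK1M : K1M_stmt) (hj : Continuous j.toRingHom)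
    (hr : Continuous r.toRingHom) (hs : Split j e r) (z : K1 C') :
    ∃ (x : K1 C) (y : K1 D), z = k1map j.toRingHom hj x + k1map r.toRingHom hr y := by
  obtain ⟨n, g, rfl⟩ := hK1G C' z
  set h : (Matrix (Fin n) (Fin n) D)ˣ := umap e.toRingHom g with hh
  set q : (Matrix (Fin n) (Fin n) C')ˣ := umap r.toRingHom h with hq
  have h1 : umap e.toRingHom (q⁻¹ * g) = 1 := by
    have e1 : umap e.toRingHom (q⁻¹ * g) = (umap e.toRingHom q)⁻¹ * umap e.toRingHom g := by
      unfold umap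
      rw [map_mul, map_inv]
    rw [e1, hq, SX1_umap_er hs, hh, inv_mul_cancel]
  have h2 : umap e.toRingHom (q⁻¹ * g)⁻¹ = 1 := by
    have e1 : umap e.toRingHom (q⁻¹ * g)⁻¹ = (umap e.toRingHom (q⁻¹ * g))⁻¹ := by
      unfold umap
      rw [map_inv]
    rw [e1, h1, inv_one]
  have h1' : ((q⁻¹ * g : (Matrix (Fin n) (Fin n) C')ˣ) : Matrix (Fin n) (Fin n) C').map e = 1 := by
    have := congrArg Units.val h1
    exact this
  have h2' : (((q⁻¹ * g)⁻¹ : (Matrix (Fin n) (Fin n) C')ˣ) :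
      Matrix (Fin n) (Fin n) C').map e = 1 := by
    have := congrArg Units.val h2
    exact this
  obtain ⟨u₀, hu₀⟩ := SX1_lift' hs ((q⁻¹ * g : (Matrix (Fin n) (Fin n) C')ˣ) :
    Matrix (Fin n) (Fin n) C') (((q⁻¹ * g)⁻¹ : (Matrix (Fin n) (Fin n) C')ˣ) :
    Matrix (Fin n) (Fin n) C') (Units.mul_inv _) (Units.inv_mul _) h1' h2'
  have h3 : umap j.toRingHom u₀ = q⁻¹ * g := Units.ext hu₀
  refine ⟨k1 u₀, k1 h, ?_⟩
  rw [k1map_k1, k1map_k1, h3, ← hq, ← (hK1M C' (Fin n) _ _).1]
  have h4 : k1 (q⁻¹ * g * q) = k1 g := by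
    rw [(hK1M C' (Fin n) _ _).1, (hK1M C' (Fin n) _ _).1, (hK1M C' (Fin n) q q).2.1]
    abel
  rw [h4]

theorem SX1_norm (hK1G : K1G_stmt) (hK1M : K1M_stmt) (hKC : KC_stmt) (hs : Split j e r)
    (x : K1 C) : ∃ (n : ℕ) (g : (Matrix (Fin n) (Fin n) C)ˣ), x = k1 g ∧
      umap e.toRingHom (umap j.toRingHom g) = 1 := by
  obtain ⟨n, g, rfl⟩ := hK1G C x
  rcases subsingleton_or_nontrivial D with hD | hD
  · refine ⟨n, g, rfl, ?_⟩
    apply Units.ext
    ext a b
    exact Subsingleton.elim _ _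
  · choose sf hsf using hs.sca
    have hinj : Function.Injective (algebraMap ℂ D) := (algebraMap ℂ D).injective
    let s : C →ₐ[ℂ] ℂ :=
      { toFun := sf
        map_one' := hinj (by rw [← hsf]; simp)
        map_mul' := fun x y => hinj (by rw [← hsf, map_mul, map_mul, map_mul, hsf, hsf])
        map_zero' := hinj (by rw [← hsf]; simp)
        map_add' := fun x y => hinj (by rw [← hsf, map_add, map_add, map_add, hsf, hsf])
        commutes' := fun z => hinj (by rw [← hsf]; simp) }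
    have hs' : ∀ x, e (j x) = algebraMap ℂ D (s x) := hsf
    set c₀ : (Matrix (Fin n) (Fin n) ℂ)ˣ := umap s.toRingHom g with hc₀
    have hκ : Continuous (algebraMap ℂ C) := continuous_algebraMap ℂ C
    refine ⟨n, umap (algebraMap ℂ C) c₀⁻¹ * g, ?_, ?_⟩
    · have e1 : k1 (umap (algebraMap ℂ C) c₀⁻¹) = 0 := by
        rw [← k1map_k1 (algebraMap ℂ C) hκ, hKC.2.2 (k1 c₀⁻¹), map_zero]
      rw [(hK1M C (Fin n) _ _).1, e1, zero_add]
    · have e1 : umap e.toRingHom (umap j.toRingHom (umap (algebraMap ℂ C) c₀⁻¹ * g)) =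
          umap e.toRingHom (umap j.toRingHom (umap (algebraMap ℂ C) c₀⁻¹)) *
            umap e.toRingHom (umap j.toRingHom g) := by
        unfold umap
        rw [map_mul, map_mul]
      have e2 : umap e.toRingHom (umap j.toRingHom (umap (algebraMap ℂ C) c₀⁻¹)) =
          (umap (algebraMap ℂ D) c₀)⁻¹ := by
        have e3 : (umap (algebraMap ℂ D) c₀)⁻¹ = umap (algebraMap ℂ D) c₀⁻¹ := by
          unfold umap
          rw [map_inv]
        rw [e3]
        apply Units.ext
        ext a b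
        show e (j (algebraMap ℂ C _)) = algebraMap ℂ D _
        rw [j.commutes, e.commutes]
      have e4 : umap e.toRingHom (umap j.toRingHom g) = umap (algebraMap ℂ D) c₀ := by
        apply Units.ext
        ext a b
        exact hs' _
      rw [e1, e2, e4, inv_mul_cancel]

end

theorem SX1 (hK1G : K1G_stmt) (hK1M : K1M_stmt) (hK1B : K1B_stmt) (hK1Z : K1Z_stmt)
    (hKC : KC_stmt) (hFUN : FUN_stmt) : SX1_stmt := by
  intro C C' D _ _ _ _ _ _ _ _ _ j e r hj hr hs
  refine ⟨SX1_surj hK1G hK1M hj hr hs, ?_⟩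
  intro x y hxy
  obtain ⟨n, g, rfl, hg⟩ := SX1_norm hK1G hK1M hKC hs x
  have hce : Continuous e.toRingHom := hs.ce
  have hy : y = 0 := by
    obtain ⟨m, h, rfl⟩ := hK1G D y
    have h1 := congrArg (k1map e.toRingHom hce) hxy
    rw [map_add, map_zero, k1map_k1, k1map_k1, k1map_k1, k1map_k1, hg, SX1_umap_er hs,
      (hK1M D (Fin n) 1 1).2.2.1, zero_add] at h1
    exact h1
  refine ⟨?_, hy⟩
  rw [hy, map_zero, add_zero, k1map_k1] at hxy
  obtain ⟨k, g', hg', γ, hγu, hγ0, hγ1⟩ := hK1Z C' (Fin n) (umap j.toRingHom g) hxy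
  have hinv : ∀ t, γ t * Ring.inverse (γ t) = 1 ∧ Ring.inverse (γ t) * γ t = 1 := fun t =>
    ⟨Ring.mul_inverse_cancel _ (hγu t), Ring.inverse_mul_cancel _ (hγu t)⟩
  have hcont := SX1_inv_cont γ γ.continuous hγu
  have hmap1 : ∀ {A B ι : Type} [Ring A] [Ring B] [Fintype ι] [DecidableEq ι] (φ : A →+* B),
      (1 : Matrix ι ι A).map φ = 1 := fun φ => map_one φ.mapMatrix
  set δ : unitInterval → Matrix (Fin n ⊕ Fin k) (Fin n ⊕ Fin k) C' :=
    fun t => ((Ring.inverse (γ t)).map e.toRingHom).map r.toRingHom * γ t with hδ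
  set δ' : unitInterval → Matrix (Fin n ⊕ Fin k) (Fin n ⊕ Fin k) C' :=
    fun t => Ring.inverse (γ t) * ((γ t).map e.toRingHom).map r.toRingHom with hδ'
  have hrr : ∀ M : Matrix (Fin n ⊕ Fin k) (Fin n ⊕ Fin k) D,
      (M.map r.toRingHom).map e.toRingHom = M := by
    intro M
    ext a b
    exact hs.er _
  have d1 : ∀ t, δ t * δ' t = 1 := by
    intro t
    simp only [hδ, hδ']
    rw [mul_assoc, ← mul_assoc (γ t), (hinv t).1, one_mul, ← Matrix.map_mul, ← Matrix.map_mul,
      (hinv t).2, hmap1, hmap1]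
  have d2 : ∀ t, δ' t * δ t = 1 := by
    intro t
    simp only [hδ, hδ']
    rw [mul_assoc, ← mul_assoc (((γ t).map e.toRingHom).map r.toRingHom), ← Matrix.map_mul,
      ← Matrix.map_mul, (hinv t).1, hmap1, hmap1, one_mul, (hinv t).2]
  have d3 : ∀ t, (δ t).map e = 1 := by
    intro t
    show (δ t).map e.toRingHom = 1
    simp only [hδ]
    rw [Matrix.map_mul, hrr, ← Matrix.map_mul, (hinv t).2, hmap1]
  have d4 : ∀ t, (δ' t).map e = 1 := by
    intro t
    show (δ' t).map e.toRingHom = 1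
    simp only [hδ']
    rw [Matrix.map_mul, hrr, ← Matrix.map_mul, (hinv t).2, hmap1]
  have hδc : Continuous δ := by
    simp only [hδ]
    exact ((hcont.matrix_map hce).matrix_map hr).matrix_mul γ.continuous
  choose w hw using fun t => SX1_lift' hs (δ t) (δ' t) (d1 t) (d2 t) (d3 t) (d4 t)
  have hjemb := (AddMonoidHomClass.isometry_of_norm j hs.iso).isEmbedding
  have hwc : Continuous (fun t => (w t : Matrix (Fin n ⊕ Fin k) (Fin n ⊕ Fin k) C)) := by
    refine continuous_matrix fun a b => ?_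
    rw [hjemb.continuous_iff]
    have h5 : (j ∘ fun t => (w t : Matrix (Fin n ⊕ Fin k) (Fin n ⊕ Fin k) C) a b) =
        fun t => δ t a b := by
      funext t
      rw [← hw t]
      rfl
    rw [h5]
    exact hδc.matrix_elem a b
  have hinjM := Matrix.map_injective (m := Fin n ⊕ Fin k) (n := Fin n ⊕ Fin k) (SX1_inj hs)
  have hge : (g' : Matrix (Fin n ⊕ Fin k) (Fin n ⊕ Fin k) C').map e.toRingHom = 1 := by
    have h6 := congrArg Units.val hg
    have h7 : ((umap j.toRingHom g : (Matrix (Fin n) (Fin n) C')ˣ) :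
        Matrix (Fin n) (Fin n) C').map e.toRingHom = 1 := h6
    rw [hg', Matrix.fromBlocks_map, h7, hmap1, Matrix.map_zero _ (map_zero e.toRingHom),
      Matrix.map_zero _ (map_zero e.toRingHom), Matrix.fromBlocks_one]
  have hw0 : (w 0 : Matrix (Fin n ⊕ Fin k) (Fin n ⊕ Fin k) C) =
      Matrix.fromBlocks (g : Matrix (Fin n) (Fin n) C) 0 0 1 := by
    apply hinjM
    have h8 : (Ring.inverse (γ 0)).map e.toRingHom = 1 := by
      have h9 : (γ 0).map e.toRingHom = 1 := by rw [hγ0, hge]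
      have h10 : (Ring.inverse (γ 0)).map e.toRingHom * (γ 0).map e.toRingHom = 1 := by
        rw [← Matrix.map_mul, (hinv 0).2, hmap1]
      rw [h9, mul_one] at h10
      exact h10
    have h11 : δ 0 = γ 0 := by
      simp only [hδ]
      rw [h8, hmap1, one_mul]
    show (w 0 : Matrix (Fin n ⊕ Fin k) (Fin n ⊕ Fin k) C).map j = _
    rw [hw 0, h11, hγ0, hg']
    show _ = (Matrix.fromBlocks (g : Matrix (Fin n) (Fin n) C) 0 0 1).map j.toRingHom
    rw [Matrix.fromBlocks_map, hmap1, Matrix.map_zero _ (map_zero j.toRingHom),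
      Matrix.map_zero _ (map_zero j.toRingHom)]
    rfl
  have hw1 : w 1 = 1 := by
    apply Units.ext
    apply hinjM
    have h8 : (Ring.inverse (γ 1)).map e.toRingHom = 1 := by
      have h9 : (γ 1).map e.toRingHom = 1 := by
        rw [hγ1]
        exact hmap1 e.toRingHom
      have h10 : (Ring.inverse (γ 1)).map e.toRingHom * (γ 1).map e.toRingHom = 1 := by
        rw [← Matrix.map_mul, (hinv 1).2, hmap1]
      rw [h9, mul_one] at h10
      exact h10
    have h11 : δ 1 = γ 1 := by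
      simp only [hδ]
      rw [h8, hmap1, one_mul]
    show (w 1 : Matrix (Fin n ⊕ Fin k) (Fin n ⊕ Fin k) C).map j = _
    rw [hw 1, h11, hγ1]
    exact (hmap1 j.toRingHom).symm
  have hH : Htp (w 0) (w 1) := ⟨⟨fun t => (w t : Matrix _ _ C), hwc⟩, fun t => (w t).isUnit, rfl, rfl⟩
  have h12 := (hK1M C (Fin n ⊕ Fin k) (w 0) (w 1)).2.2.2 hH
  have h13 := hK1B C (Fin n) (Fin k) g 1 (w 0) (by rw [hw0]; rfl)
  rw [hw1, (hK1M C (Fin n ⊕ Fin k) 1 1).2.2.1] at h12
  rw [h12, (hK1M C (Fin k) 1 1).2.2.1, add_zero] at h13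
  exact h13.symm

end Pool.Agent.PV
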